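import Pool.Agent.Run7.h677.PS.Stm

/-!
# Project PS, piece CUT: separation from one colour
-/

set_option autoImplicit false

namespace Pool.Agent.Run7.h677.PS
open Finset

namespace Cut

variable {d n : ℕ}

lemma sep_of (X : Fin (d + 1) → Fin n → E d) (p : E d) (i : Fin (d + 1))
    (Z : Fin (d + 1) → Finset (Fin n)) (a : E d)
    (h : ∀ j, j ≠ i → ∀ y ∈ Z j, inner ℝ a p < inner ℝ a (X j y)) :
    p ∉ convexHull ℝ {x : E d | ∃ j, j ≠ i ∧ ∃ y ∈ Z j, x = X j y} := by
  intro hp
  have hconv : Convex ℝ {x : E d | inner ℝ a p < inner ℝ a x} := by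
    have hl : IsLinearMap ℝ (fun x : E d => inner ℝ a x) :=
      ⟨fun x y => inner_add_right _ _ _, fun c x => by
        rw [real_inner_smul_right]; rfl⟩
    exact convex_halfSpace_gt hl _
  have hsub : convexHull ℝ {x : E d | ∃ j, j ≠ i ∧ ∃ y ∈ Z j, x = X j y} ⊆
      {x : E d | inner ℝ a p < inner ℝ a x} := by
    refine convexHull_min ?_ hconv
    rintro x ⟨j, hj, y, hy, rfl⟩
    exact h j hj y hy
  have h1 : inner ℝ a p < inner ℝ a p := hsub hp
  exact lt_irrefl _ h1

/-- at most `d - 1` points of the family are in a hyperplane through `p` -/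
lemma hyper (X : Fin (d + 1) → Fin n → E d) (p : E d) (hGP : GP (unc X) {∅, {p}}) (hd : 1 ≤ d)
    (a : E d) (ha : a ≠ 0) (j : Fin (d + 1)) (S : Finset (Fin n))
    (hS : ∀ y ∈ S, inner ℝ a (X j y) = inner ℝ a p) : S.card ≤ d - 1 := by
  classical
  by_contra hcon
  push Not at hcon
  obtain ⟨S', hS', hcard⟩ := exists_subset_card_eq (show d ≤ S.card by omega)
  set y : Finset (Fin (d + 1) × Fin n) := S'.map ⟨fun t => (j, t), fun _ _ h => by
    simpa using h⟩ with hy
  have hyc : y.card = d := by rw [hy, card_map, hcard]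
  have hAI := hGP {p} (by simp) y (by rw [hyc, card_singleton]; omega)
  have hfin : Module.finrank ℝ (E d) = d := by simp
  have hspan := hAI.affineSpan_eq_top_iff_card_eq_finrank_add_one.2 (by
    rw [Fintype.card_sum, hfin]
    simp [hyc]
    omega)
  have hle : affineSpan ℝ (Set.range (Sum.elim (fun v : ({p} : Finset (E d)) => (v : E d))
      (fun i : y => unc X i))) ≤ AffineSubspace.mk' p (ℝ ∙ a)ᗮ := by
    rw [affineSpan_le]
    rintro _ ⟨t, rfl⟩
    rw [SetLike.mem_coe, AffineSubspace.mem_mk', Submodule.mem_orthogonal_singleton_iff_inner_right,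
      vsub_eq_sub, inner_sub_right]
    rcases t with ⟨v, hv⟩ | ⟨⟨j', t⟩, ht⟩
    · rw [mem_singleton] at hv
      simp [hv]
    · rw [hy, mem_map] at ht
      obtain ⟨t', ht', h2⟩ := ht
      simp only [Function.Embedding.coeFn_mk, Prod.mk.injEq] at h2
      obtain ⟨rfl, rfl⟩ := h2
      simp only [Sum.elim_inr, unc]
      rw [hS t' (hS' ht'), sub_self]
  rw [hspan] at hle
  have hmem : a + p ∈ AffineSubspace.mk' p (ℝ ∙ a)ᗮ := hle (AffineSubspace.mem_top ℝ _ _)
  rw [AffineSubspace.mem_mk', Submodule.mem_orthogonal_singleton_iff_inner_right, vsub_eq_sub,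
    add_sub_cancel_right] at hmem
  exact ha (inner_self_eq_zero.1 hmem)

lemma ncard_sub {m : ℕ} (Y : Finset (Fin m)) (P : Fin m → Prop) [DecidablePred P] :
    {y : {y // y ∈ Y} | P y}.ncard = (Y.filter P).card := by
  rw [← Set.ncard_image_of_injective _ Subtype.val_injective, ← Set.ncard_coe_finset]
  congr 1
  ext y
  simp [and_comm]

end Cut

open Cut in
theorem t_CUT : S_CENTER → S_CUT := by
  classical
  intro hC d n X p hd hGP i Y hY
  have hYne : ∀ j, Nonempty {y // y ∈ Y j} := by
    intro j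
    have h1 := hY j
    have h2 : 0 < (Y j).card := by
      have : 0 < 2 * (d + 1) * d := by positivity
      omega
    obtain ⟨y, hy⟩ := card_pos.1 h2
    exact ⟨⟨y, hy⟩⟩
  have hcen : ∀ j, ∃ z : E d, ∀ a : E d, (Y j).card ≤
      (d + 1) * ((Y j).filter (fun y => inner ℝ a z ≤ inner ℝ a (X j y))).card := by
    intro j
    have := hYne j
    obtain ⟨z, hz⟩ := hC d {y // y ∈ Y j} (fun y => X j y)
    refine ⟨z, fun a => ?_⟩
    have h1 := hz a
    rw [ncard_sub (Y j) (fun y => inner ℝ a z ≤ inner ℝ a (X j y))] at h1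
    simpa using h1
  choose z hz using hcen
  -- it is enough to find a good direction
  have hred : ∀ a : E d, (∀ j, j ≠ i → (Y j).card ≤
      2 * (d + 1) * ((Y j).filter (fun y => inner ℝ a p < inner ℝ a (X j y))).card) →
      ∃ Z : Fin (d + 1) → Finset (Fin n),
      (∀ j, Z j ⊆ Y j ∧ (Y j).card ≤ 2 * (d + 1) * (Z j).card) ∧
      p ∉ convexHull ℝ {x : E d | ∃ j, j ≠ i ∧ ∃ y ∈ Z j, x = X j y} := by
    intro a ha
    refine ⟨fun j => if j = i then Y j else
      (Y j).filter (fun y => inner ℝ a p < inner ℝ a (X j y)), fun j => ?_, ?_⟩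
    · by_cases hj : j = i
      · simp only [if_pos hj]
        refine ⟨Subset.refl _, ?_⟩
        nlinarith [Nat.zero_le ((Y j).card), Nat.zero_le d]
      · simp only [if_neg hj]
        exact ⟨filter_subset _ _, ha j hj⟩
    · refine sep_of X p i _ a fun j hj y hy => ?_
      simp only [if_neg hj, mem_filter] at hy
      exact hy.2
  set K : Set (E d) := convexHull ℝ (Set.range (fun j : {j // j ≠ i} => z j)) with hK
  by_cases hp : p ∈ K
  · -- second case
    have hcard : Fintype.card {j : Fin (d + 1) // j ≠ i} = (d - 1) + 1 := by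
      rw [Fintype.card_subtype_compl, Fintype.card_fin]
      simp
      omega
    have hfr := finrank_vectorSpan_range_le ℝ (fun j : {j // j ≠ i} => z j) hcard
    set W := vectorSpan ℝ (Set.range (fun j : {j // j ≠ i} => z j)) with hW
    have hWtop : W ≠ ⊤ := by
      intro h
      rw [h, finrank_top] at hfr
      simp at hfr
      omega
    have hWo : Wᗮ ≠ ⊥ := by
      intro h
      exact hWtop ((Submodule.orthogonal_eq_bot_iff).1 h)
    obtain ⟨a, haW, ha0⟩ := (Submodule.ne_bot_iff _).1 hWo
    obtain ⟨⟨j0, hj0⟩⟩ : Nonempty {j : Fin (d + 1) // j ≠ i} := by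
      rw [← Fintype.card_pos_iff, hcard]; omega
    have hconst : ∀ j, j ≠ i → inner ℝ a (z j) = inner ℝ a (z j0) := by
      intro j hj
      have h1 : z j - z j0 ∈ W := by
        have := vsub_mem_vectorSpan ℝ (s := Set.range (fun j : {j // j ≠ i} => z j))
          (p₁ := z j) (p₂ := z j0) ⟨⟨j, hj⟩, rfl⟩ ⟨⟨j0, hj0⟩, rfl⟩
        simpa using this
      have h2 := (Submodule.mem_orthogonal' _ _).1 haW _ h1
      rw [inner_sub_right] at h2
      linarith
    have hpc : inner ℝ a p = inner ℝ a (z j0) := by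
      have hl : IsLinearMap ℝ (fun x : E d => inner ℝ a x) :=
        ⟨fun x y => inner_add_right _ _ _, fun c x => by
          rw [real_inner_smul_right]; rfl⟩
      have hsub : K ⊆ {x : E d | inner ℝ a x = inner ℝ a (z j0)} := by
        refine convexHull_min ?_ (convex_hyperplane hl _)
        rintro _ ⟨⟨j, hj⟩, rfl⟩
        exact hconst j hj
      exact hsub hp
    refine hred a fun j hj => ?_
    have h1 := hz j a
    have h2 : ((Y j).filter (fun y => inner ℝ a (z j) ≤ inner ℝ a (X j y))).card ≤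
        ((Y j).filter (fun y => inner ℝ a p < inner ℝ a (X j y))).card +
          ((Y j).filter (fun y => inner ℝ a (X j y) = inner ℝ a p)).card := by
      refine le_trans (card_le_card ?_) (card_union_le _ _)
      intro y hy
      rw [mem_filter] at hy
      rw [mem_union, mem_filter, mem_filter]
      have h3 : inner ℝ a p ≤ inner ℝ a (X j y) := by
        rw [hpc, ← hconst j hj]; exact hy.2
      rcases h3.lt_or_eq with h4 | h4
      · exact Or.inl ⟨hy.1, h4⟩
      · exact Or.inr ⟨hy.1, h4.symm⟩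
    have h3 := hyper X p hGP hd a ha0 j
      ((Y j).filter (fun y => inner ℝ a (X j y) = inner ℝ a p)) (fun y hy => (mem_filter.1 hy).2)
    have h4 := hY j
    set A := ((Y j).filter (fun y => inner ℝ a p < inner ℝ a (X j y))).card
    set B := ((Y j).filter (fun y => inner ℝ a (X j y) = inner ℝ a p)).card
    set C := ((Y j).filter (fun y => inner ℝ a (z j) ≤ inner ℝ a (X j y))).card
    have h5 : (d + 1) * C ≤ (d + 1) * (A + (d - 1)) := Nat.mul_le_mul_left _ (by omega)
    have h6 : (d + 1) * (A + (d - 1)) ≤ (d + 1) * A + (d + 1) * d := by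
      rw [← mul_add]; exact Nat.mul_le_mul_left _ (by omega)
    nlinarith
  · -- first case
    have hcl : IsClosed K :=
      ((Set.finite_range (fun j : {j // j ≠ i} => z j)).isCompact_convexHull (𝕜 := ℝ)).isClosed
    obtain ⟨f, u, hfp, hfK⟩ := geometric_hahn_banach_point_closed (convex_convexHull ℝ _) hcl hp
    set a : E d := (InnerProductSpace.toDual ℝ (E d)).symm f with ha
    have hfa : ∀ x, inner ℝ a x = f x := fun x => by
      rw [ha, InnerProductSpace.toDual_symm_apply]
    refine hred a fun j hj => ?_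
    have h1 := hz j a
    have h2 : ((Y j).filter (fun y => inner ℝ a (z j) ≤ inner ℝ a (X j y))).card ≤
        ((Y j).filter (fun y => inner ℝ a p < inner ℝ a (X j y))).card := by
      refine card_le_card ?_
      intro y hy
      rw [mem_filter] at hy ⊢
      refine ⟨hy.1, lt_of_lt_of_le ?_ hy.2⟩
      rw [hfa, hfa]
      exact hfp.trans (hfK _ (subset_convexHull ℝ _ ⟨⟨j, hj⟩, rfl⟩))
    have h5 := Nat.mul_le_mul_left (d + 1) h2
    nlinarith

end Pool.Agent.Run7.h677.PS
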