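import Pool.Agent.Run7.h677.PS.Stm

/-!
# Project PS, piece FREUD: a fine triangulation of a large ball
-/

set_option autoImplicit false

namespace Pool.Agent.Run7.h677.PS
open Finset

namespace Freud

variable {d : ℕ}

/-- the scaled embedding -/
noncomputable def P (h : ℝ) (v : Fin d → ℤ) : E d := WithLp.toLp 2 (fun i => h * (v i : ℝ))

/-- the scaled linear map -/
noncomputable def L (h : ℝ) : (Fin d → ℝ) →ₗ[ℝ] E d :=
  h • ((WithLp.linearEquiv 2 ℝ (Fin d → ℝ)).symm : (Fin d → ℝ) →ₗ[ℝ] E d)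

lemma L_apply (h : ℝ) (x : Fin d → ℝ) (i : Fin d) : L h x i = h * x i := by
  simp [L]

lemma P_apply (h : ℝ) (v : Fin d → ℤ) (i : Fin d) : P h v i = h * (v i : ℝ) := rfl

lemma L_cast (h : ℝ) (v : Fin d → ℤ) : L h (fun i => (v i : ℝ)) = P h v := by
  ext i
  rw [L_apply, P_apply]

lemma P_inj {h : ℝ} (hh : 0 < h) : Function.Injective (P h : (Fin d → ℤ) → E d) := by
  intro v w hvw
  funext i
  have h1 := congrArg (fun x : E d => x i) hvw
  simp only [P_apply] at h1
  have h2 := mul_left_cancel₀ hh.ne' h1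
  exact_mod_cast h2

lemma hull_iff {h : ℝ} (hh : 0 < h) (s : Finset (Fin d → ℤ)) (x : E d) :
    x ∈ convexHull ℝ ((s.image (P h) : Finset (E d)) : Set (E d)) ↔
      (fun i => x i / h) ∈ zh s := by
  have h1 : ((s.image (P h) : Finset (E d)) : Set (E d)) =
      L h '' ((fun (v : Fin d → ℤ) (i : Fin d) => (v i : ℝ)) '' (s : Set (Fin d → ℤ))) := by
    rw [coe_image, Set.image_image]
    refine Set.image_congr fun v _ => ?_
    exact (L_cast h v).symm
  rw [h1, ← LinearMap.image_convexHull]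
  unfold zh
  constructor
  · rintro ⟨y, hy, hyx⟩
    have : (fun i => x i / h) = y := by
      funext i
      rw [← hyx, L_apply, mul_div_cancel_left₀ _ hh.ne']
    rw [this]; exact hy
  · intro hy
    refine ⟨_, hy, ?_⟩
    ext i
    rw [L_apply, mul_div_cancel₀ _ hh.ne']

lemma kv_coord (a : Fin d → ℤ) (π : Equiv.Perm (Fin d)) (j : Fin (d + 1)) (m : Fin d) :
    kv a π j (π m) = a (π m) + if (m : ℕ) < (j : ℕ) then 1 else 0 := by
  simp [kv]

/-- affine independence of the vertices -/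
lemma aff_ind {h : ℝ} (hh : 0 < h) (a : Fin d → ℤ) (π : Equiv.Perm (Fin d)) :
    AffineIndependent ℝ (fun j : Fin (d + 1) => P h (kv a π j)) := by
  rw [affineIndependent_iff_of_fintype]
  intro w hw hw2
  rw [Finset.weightedVSub_eq_linear_combination _ hw] at hw2
  have hcoord : ∀ m : Fin d, ∑ j : Fin (d + 1), (if (m : ℕ) < (j : ℕ) then w j else 0) = 0 := by
    intro m
    have h1 := congrArg (fun x : E d => x (π m)) hw2
    simp only [PiLp.zero_apply] at h1
    have h2 : (∑ j : Fin (d + 1), w j • P h (kv a π j)) (π m) =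
        ∑ j : Fin (d + 1), w j * (h * ((kv a π j (π m) : ℤ) : ℝ)) := by
      rw [WithLp.ofLp_sum, Finset.sum_apply]
      rfl
    rw [h2] at h1
    have h3 : ∀ j : Fin (d + 1), w j * (h * ((kv a π j (π m) : ℤ) : ℝ)) =
        w j * (h * (a (π m) : ℝ)) + h * (if (m : ℕ) < (j : ℕ) then w j else 0) := by
      intro j
      rw [kv_coord]
      split_ifs <;> push_cast <;> ring
    rw [Finset.sum_congr rfl fun j _ => h3 j, Finset.sum_add_distrib, ← Finset.sum_mul, hw,
      zero_mul, zero_add, ← Finset.mul_sum] at h1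
    rcases mul_eq_zero.1 h1 with h4 | h4
    · exact absurd h4 hh.ne'
    · exact h4
  have htail : ∀ t : ℕ, t ≤ d + 1 → ∑ j : Fin (d + 1), (if t ≤ (j : ℕ) then w j else 0) = 0 := by
    intro t ht
    rcases Nat.eq_zero_or_pos t with h0 | h0
    · subst h0; simpa using hw
    · rcases Nat.lt_or_ge t (d + 1) with h1 | h1
      · have := hcoord ⟨t - 1, by omega⟩
        rw [← this]
        refine Finset.sum_congr rfl fun j _ => ?_
        congr 1
        simp only [eq_iff_iff]
        omega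
      · refine Finset.sum_eq_zero fun j _ => ?_
        rw [if_neg]
        have := j.2
        omega
  intro j
  have h1 := htail (j : ℕ) (by have := j.2; omega)
  have h2 := htail ((j : ℕ) + 1) (by have := j.2; omega)
  have h3 : ∑ l : Fin (d + 1), ((if (j : ℕ) ≤ (l : ℕ) then w l else 0) -
      (if (j : ℕ) + 1 ≤ (l : ℕ) then w l else 0)) = 0 := by
    rw [Finset.sum_sub_distrib, h1, h2, sub_zero]
  have h4 : ∀ l : Fin (d + 1), ((if (j : ℕ) ≤ (l : ℕ) then w l else 0) -
      (if (j : ℕ) + 1 ≤ (l : ℕ) then w l else 0)) = if l = j then w l else 0 := by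
    intro l
    by_cases hlj : l = j
    · subst hlj
      rw [if_pos le_rfl, if_neg (by omega), if_pos rfl, sub_zero]
    · have hne : (l : ℕ) ≠ (j : ℕ) := fun h5 => hlj (Fin.ext h5)
      rw [if_neg hlj]
      by_cases h6 : (j : ℕ) ≤ (l : ℕ)
      · rw [if_pos h6, if_pos (by omega), sub_self]
      · rw [if_neg h6, if_neg (by omega), sub_self]
  rw [Finset.sum_congr rfl fun l _ => h4 l, Finset.sum_ite_eq', if_pos (Finset.mem_univ j)] at h3
  exact h3

lemma dist_le {h δ : ℝ} (hh : 0 < h) (hδ : (d + 1 : ℝ) * h ≤ δ) (a : Fin d → ℤ)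
    (π : Equiv.Perm (Fin d)) (j l : Fin (d + 1)) :
    dist (P h (kv a π j)) (P h (kv a π l)) ≤ δ := by
  rw [EuclideanSpace.dist_eq]
  have h1 : ∀ i, dist (P h (kv a π j) i) (P h (kv a π l) i) ^ 2 ≤ h ^ 2 := by
    intro i
    rw [P_apply, P_apply, Real.dist_eq, sq_abs, ← mul_sub, mul_pow]
    have h2 : (((kv a π j i : ℤ) : ℝ) - ((kv a π l i : ℤ) : ℝ)) ^ 2 ≤ 1 := by
      unfold kv
      split_ifs <;> push_cast <;> norm_num
    have h3 : 0 ≤ h ^ 2 := sq_nonneg h
    nlinarith
  have h2 : ∑ i, dist (P h (kv a π j) i) (P h (kv a π l) i) ^ 2 ≤ ((d + 1 : ℝ) * h) ^ 2 := by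
    refine (Finset.sum_le_sum fun i _ => h1 i).trans ?_
    rw [Finset.sum_const, Finset.card_univ, Fintype.card_fin, nsmul_eq_mul, mul_pow]
    refine mul_le_mul_of_nonneg_right ?_ (sq_nonneg h)
    nlinarith [Nat.cast_nonneg (α := ℝ) d]
  calc Real.sqrt (∑ i, dist (P h (kv a π j) i) (P h (kv a π l) i) ^ 2)
      ≤ Real.sqrt (((d + 1 : ℝ) * h) ^ 2) := Real.sqrt_le_sqrt h2
    _ = (d + 1 : ℝ) * h := Real.sqrt_sq (by positivity)
    _ ≤ δ := hδ

/-- the index set -/
noncomputable def Idx (d : ℕ) (M : ℤ) : Finset ((Fin d → ℤ) × Equiv.Perm (Fin d)) :=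
  (Fintype.piFinset (fun _ : Fin d => Finset.Ico (-M) M)) ×ˢ univ

lemma mem_Idx {M : ℤ} {q : (Fin d → ℤ) × Equiv.Perm (Fin d)} :
    q ∈ Idx d M ↔ ∀ i, -M ≤ q.1 i ∧ q.1 i < M := by
  simp [Idx, Fintype.mem_piFinset]

/-- the simplex -/
noncomputable def sx (h : ℝ) (q : (Fin d → ℤ) × Equiv.Perm (Fin d)) : Finset (E d) :=
  (ks q.1 q.2).image (P h)

/-- the facet -/
noncomputable def fc (h : ℝ) (x : ((Fin d → ℤ) × Equiv.Perm (Fin d)) × Fin (d + 1)) :
    Finset (E d) :=
  ((ks x.1.1 x.1.2).erase (kv x.1.1 x.1.2 x.2)).image (P h)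

lemma fc_eq {h : ℝ} (hh : 0 < h) (x : ((Fin d → ℤ) × Equiv.Perm (Fin d)) × Fin (d + 1)) :
    fc h x = (sx h x.1).erase (P h (kv x.1.1 x.1.2 x.2)) := by
  unfold fc sx
  rw [Finset.image_erase (P_inj hh)]

lemma far_of_const {R c : ℝ} (i : Fin d) (τ : Finset (E d))
    (hτ : ∀ y ∈ τ, y i = c) (hc : R < |c|) :
    Disjoint (convexHull ℝ (τ : Set (E d))) (Metric.closedBall 0 R) := by
  rw [Set.disjoint_left]
  intro y hy hyR
  have hl : IsLinearMap ℝ (fun x : E d => x i) := ⟨fun _ _ => rfl, fun _ _ => rfl⟩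
  have hsub : convexHull ℝ (τ : Set (E d)) ⊆ {y : E d | y i = c} :=
    convexHull_min (fun y hy => hτ y hy) (convex_hyperplane hl c)
  have h1 : y i = c := hsub hy
  have h2 : |y i| ≤ ‖y‖ := by
    have := PiLp.norm_apply_le y i
    simpa using this
  rw [mem_closedBall_zero_iff] at hyR
  rw [h1] at h2
  linarith

end Freud

open Freud in
theorem t_FREUD : S_K1 → S_K2 → S_K3 → S_K4 → S_FREUD := by
  intro hK1 hK2 hK3 hK4 d δ R hd hδ hR
  set h : ℝ := δ / (d + 1) with hhdef
  have hd1 : (0 : ℝ) < d + 1 := by positivity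
  have hh : 0 < h := by positivity
  have hhδ : (d + 1 : ℝ) * h ≤ δ := by
    rw [hhdef, mul_div_cancel₀ _ hd1.ne']
  obtain ⟨N, hN⟩ := exists_nat_gt (R / h)
  have hNR : R < h * N := by
    rw [div_lt_iff₀ hh] at hN; linarith
  set M : ℤ := (N : ℤ) + 1 with hM
  have hN0 : (0 : ℝ) < N := lt_of_le_of_lt (by positivity) hN
  have hMR : R < h * (M : ℝ) := by
    rw [hM]; push_cast; nlinarith
  set T : Finset (Finset (E d)) := (Idx d M).image (sx h) with hT
  have hsxinj : ∀ q q' : (Fin d → ℤ) × Equiv.Perm (Fin d), sx h q = sx h q' → q = q' := by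
    intro q q' hq
    have h1 := Finset.image_injective (P_inj hh) hq
    obtain ⟨h2, h3⟩ := (hK1 d q.1 q.2).2 q'.1 q'.2 h1
    exact Prod.ext h2 h3
  have hvert : ∀ (q : (Fin d → ℤ) × Equiv.Perm (Fin d)) (v : E d), v ∈ sx h q ↔
      ∃ j, v = P h (kv q.1 q.2 j) := by
    intro q v
    unfold sx ks
    simp only [mem_image, mem_univ, true_and, exists_exists_eq_and]
    constructor
    · rintro ⟨j, hj⟩; exact ⟨j, hj.symm⟩
    · rintro ⟨j, hj⟩; exact ⟨j, hj.symm⟩
  refine ⟨T, ?_, ?_, ?_⟩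
  · intro s hs
    rw [hT, mem_image] at hs
    obtain ⟨q, -, rfl⟩ := hs
    refine ⟨?_, ?_, ?_⟩
    · unfold sx ks
      rw [card_image_of_injective _ (P_inj hh), card_image_of_injective _ (hK1 d q.1 q.2).1,
        card_univ, Fintype.card_fin]
    · have hr := (aff_ind hh q.1 q.2).range
      have hmem : ∀ v : sx h q, (v : E d) ∈ Set.range (fun j : Fin (d + 1) => P h (kv q.1 q.2 j)) := by
        intro v
        obtain ⟨j, hj⟩ := (hvert q v).1 v.2
        exact ⟨j, hj.symm⟩
      let e : sx h q ↪ Set.range (fun j : Fin (d + 1) => P h (kv q.1 q.2 j)) :=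
        ⟨fun v => ⟨v, hmem v⟩, fun v w hvw => by
          have := congrArg Subtype.val hvw
          exact Subtype.ext this⟩
      exact hr.comp_embedding e
    · intro u hu v hv
      obtain ⟨j, rfl⟩ := (hvert q u).1 hu
      obtain ⟨l, rfl⟩ := (hvert q v).1 hv
      exact Freud.dist_le hh hhδ q.1 q.2 j l
  · intro x hx hno
    set x' : Fin d → ℝ := fun i => x i / h with hx'
    obtain ⟨⟨a, π, hmem⟩, huniq⟩ := hK4 d x' hd
    have hin : (a, π) ∈ Idx d M := by
      rw [mem_Idx]
      intro i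
      have h1 := (((hK3 d a π x' hd).1.1 hmem).1) i
      have h2 : |x i| ≤ ‖x‖ := by
        have := PiLp.norm_apply_le x i
        simpa using this
      have h3 : |x' i| < N := by
        rw [hx']
        simp only
        rw [abs_div, abs_of_pos hh, div_lt_iff₀ hh]
        linarith
      rw [abs_lt] at h3
      have h4 : (a i : ℝ) < N := by linarith [h1.1, h3.2]
      have h5 : -(N : ℝ) - 1 < a i := by linarith [h1.2, h3.1]
      have h6 : a i < (N : ℤ) := by exact_mod_cast h4
      have h7 : -(N : ℤ) - 1 < a i := by exact_mod_cast h5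
      simp only [hM]
      omega
    have hfac : ∀ (b : Fin d → ℤ) (ρ : Equiv.Perm (Fin d)), (b, ρ) ∈ Idx d M →
        ∀ j, x' ∉ zh ((ks b ρ).erase (kv b ρ j)) := by
      intro b ρ hq j hj
      rw [← hull_iff hh] at hj
      have h1 : sx h (b, ρ) ∈ T := by rw [hT]; exact mem_image_of_mem _ hq
      refine hno _ h1 (P h (kv b ρ j)) ((hvert (b, ρ) _).2 ⟨j, rfl⟩) ?_
      have h2 := fc_eq hh ((b, ρ), j)
      unfold fc at h2
      simp only at h2
      rw [← h2]
      exact hj
    refine ⟨sx h (a, π), ⟨by rw [hT]; exact mem_image_of_mem _ hin, ?_⟩, ?_⟩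
    · exact (hull_iff hh _ _).2 hmem
    · rintro s' ⟨hs', hxs'⟩
      rw [hT, mem_image] at hs'
      obtain ⟨⟨b, ρ⟩, hq, rfl⟩ := hs'
      have h1 : x' ∈ zh (ks b ρ) := (hull_iff hh _ _).1 hxs'
      have f1 := hfac a π hin
      have f2 := hfac b ρ hq
      have h23 := huniq a b π ρ hmem h1 f1 f2
      rw [h23.1, h23.2]
  · intro g hg
    obtain ⟨nb, hnb⟩ := hK2 d hd
    have hsum : ∑ s ∈ T, ∑ v ∈ s, g (s.erase v) =
        ∑ x ∈ Idx d M ×ˢ (univ : Finset (Fin (d + 1))), g (fc h x) := by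
      rw [hT, sum_image (fun q _ q' _ hqq => hsxinj q q' hqq), sum_product]
      refine sum_congr rfl fun q _ => ?_
      have h1 : sx h q = univ.image (fun j => P h (kv q.1 q.2 j)) := by
        ext v
        rw [hvert]
        simp only [mem_image, mem_univ, true_and]
        constructor
        · rintro ⟨j, hj⟩; exact ⟨j, hj.symm⟩
        · rintro ⟨j, hj⟩; exact ⟨j, hj.symm⟩
      have h2 : ∑ v ∈ sx h q, g ((sx h q).erase v) =
          ∑ j : Fin (d + 1), g ((sx h q).erase (P h (kv q.1 q.2 j))) := by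
        conv_lhs => rw [h1]
        rw [sum_image]
        · rw [← h1]
        · intro j _ l _ hjl
          exact (hK1 d q.1 q.2).1 (P_inj hh hjl)
      rw [h2]
      refine sum_congr rfl fun j _ => ?_
      rw [fc_eq hh (q, j)]
    rw [hsum]
    have hself : ∀ c : ZMod 2, c + c = 0 := by decide
    have hfar : ∀ x ∈ Idx d M ×ˢ (univ : Finset (Fin (d + 1))),
        nb x ∉ Idx d M ×ˢ (univ : Finset (Fin (d + 1))) → g (fc h x) = 0 := by
      intro x hx hnx
      rw [mem_product, mem_Idx] at hx hnx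
      simp only [mem_univ, and_true] at hx hnx
      push Not at hnx
      obtain ⟨i, hi⟩ := hnx
      have hxi := hx i
      obtain ⟨-, -, -, h4⟩ := hnb x
      have hne : (nb x).1.1 i ≠ x.1.1 i := by
        intro he
        rw [he] at hi
        exact absurd hxi.2 (not_lt.2 (hi hxi.1))
      obtain ⟨h5, h6⟩ := h4 i hne
      rw [abs_le] at h5
      have hmax : max ((nb x).1.1 i) (x.1.1 i) = M ∨ max ((nb x).1.1 i) (x.1.1 i) = -M := by
        by_cases h7 : -M ≤ (nb x).1.1 i
        · have h8 := hi h7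
          left
          rw [max_eq_left (by omega)]
          omega
        · right
          rw [max_eq_right (by omega)]
          omega
      refine hg _ (far_of_const (c := h * ((max ((nb x).1.1 i) (x.1.1 i) : ℤ) : ℝ)) i _ ?_ ?_)
      · intro y hy
        unfold fc at hy
        rw [mem_image] at hy
        obtain ⟨v, hv, rfl⟩ := hy
        rw [P_apply, h6 v hv]
      · rw [abs_mul, abs_of_pos hh]
        have hMpos : (0 : ℝ) < (M : ℝ) := by
          rw [hM]; push_cast; linarith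
        rcases hmax with h7 | h7
        · rw [h7, abs_of_pos hMpos]; exact hMR
        · rw [h7]
          push_cast
          rw [abs_neg, abs_of_pos hMpos]; exact hMR
    classical
    refine Finset.sum_involution
      (fun x _ => if nb x ∈ Idx d M ×ˢ (univ : Finset (Fin (d + 1))) then nb x else x)
      ?_ ?_ ?_ ?_
    · intro x hx
      by_cases hn : nb x ∈ Idx d M ×ˢ (univ : Finset (Fin (d + 1)))
      · rw [if_pos hn]
        have h1 : fc h (nb x) = fc h x := by
          unfold fc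
          rw [(hnb x).2.2.1]
        rw [h1]
        exact hself _
      · rw [if_neg hn, hfar x hx hn, add_zero]
    · intro x hx hfx
      by_cases hn : nb x ∈ Idx d M ×ˢ (univ : Finset (Fin (d + 1)))
      · rw [if_pos hn]
        exact (hnb x).2.1
      · exact absurd (hfar x hx hn) hfx
    · intro x hx
      by_cases hn : nb x ∈ Idx d M ×ˢ (univ : Finset (Fin (d + 1)))
      · rw [if_pos hn]; exact hn
      · rw [if_neg hn]; exact hx
    · intro x hx
      by_cases hn : nb x ∈ Idx d M ×ˢ (univ : Finset (Fin (d + 1)))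
      · simp only [if_pos hn]
        rw [(hnb x).1, if_pos hx]
      · simp only [if_neg hn]

end Pool.Agent.Run7.h677.PS
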