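import Pool.Agent.Run7.h677.PS.Stm

/-!
# Project PS, piece REG: weak regularity by density increments
-/

set_option autoImplicit false

namespace Pool.Agent.Run7.h677.PS
open Finset

namespace Reg

variable {d n : ℕ}

open Classical in
/-- number of tuples of `H` in a box -/
noncomputable def Hc (H : Set (Tup d n)) (Y : Fin (d + 1) → Finset (Fin n)) : ℕ :=
  ((Fintype.piFinset Y).filter (fun f => f ∈ H)).card

/-- the regularity property -/
def Pr (H : Set (Tup d n)) (ε : ℝ) (Y : Fin (d + 1) → Finset (Fin n)) : Prop :=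
  ∀ Z : Fin (d + 1) → Finset (Fin n),
    (∀ i, Z i ⊆ Y i ∧ ε * ((Y i).card : ℝ) ≤ ((Z i).card : ℝ)) → ∃ f ∈ H, ∀ i, f i ∈ Z i

/-- the boxes of a splitting -/
def bx (Y Z : Fin (d + 1) → Finset (Fin n)) (B : Finset (Fin (d + 1))) :
    Fin (d + 1) → Finset (Fin n) := fun i => if i ∈ B then Z i else Y i \ Z i

lemma bx_sub {Y Z : Fin (d + 1) → Finset (Fin n)} (h : ∀ i, Z i ⊆ Y i)
    (B : Finset (Fin (d + 1))) (i : Fin (d + 1)) : bx Y Z B i ⊆ Y i := by
  unfold bx
  split_ifs
  · exact h i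
  · exact sdiff_subset

open Classical in
lemma Hc_split (H : Set (Tup d n)) {Y Z : Fin (d + 1) → Finset (Fin n)} (h : ∀ i, Z i ⊆ Y i) :
    Hc H Y = ∑ B ∈ (univ : Finset (Finset (Fin (d + 1)))), Hc H (bx Y Z B) := by
  unfold Hc
  rw [card_eq_sum_card_fiberwise (f := fun f : Tup d n => univ.filter (fun i => f i ∈ Z i))
    (t := (univ : Finset (Finset (Fin (d + 1))))) (fun _ _ => mem_coe.2 (mem_univ _))]
  refine sum_congr rfl fun B _ => ?_
  congr 1
  ext f
  simp only [mem_filter, Fintype.mem_piFinset]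
  constructor
  · rintro ⟨⟨h1, h2⟩, h3⟩
    refine ⟨fun i => ?_, h2⟩
    unfold bx
    by_cases hi : i ∈ B
    · rw [if_pos hi]
      rw [← h3] at hi
      exact (mem_filter.1 hi).2
    · rw [if_neg hi, mem_sdiff]
      refine ⟨h1 i, fun h4 => hi ?_⟩
      rw [← h3]
      exact mem_filter.2 ⟨mem_univ i, h4⟩
  · rintro ⟨h1, h2⟩
    refine ⟨⟨fun i => bx_sub h B i (h1 i), h2⟩, ?_⟩
    ext i
    simp only [mem_filter, mem_univ, true_and]
    have h3 := h1 i
    unfold bx at h3
    by_cases hi : i ∈ B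
    · rw [if_pos hi] at h3
      exact ⟨fun _ => hi, fun _ => h3⟩
    · rw [if_neg hi, mem_sdiff] at h3
      exact ⟨fun h4 => absurd h4 h3.2, fun h4 => absurd h4 hi⟩

lemma prod_split {Y Z : Fin (d + 1) → Finset (Fin n)} (h : ∀ i, Z i ⊆ Y i) :
    ∏ i, ((Y i).card : ℝ) = ∑ B ∈ (univ : Finset (Finset (Fin (d + 1)))),
      ∏ i, ((bx Y Z B i).card : ℝ) := by
  have h1 : ∀ i, ((Y i).card : ℝ) = ((Z i).card : ℝ) + ((Y i \ Z i).card : ℝ) := by
    intro i
    rw [← Nat.cast_add, add_comm, card_sdiff_add_card_eq_card (h i)]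
  rw [prod_congr rfl fun i _ => h1 i, Finset.prod_add, Finset.powerset_univ]
  refine sum_congr rfl fun B _ => ?_
  rw [← Finset.prod_sdiff (subset_univ B), mul_comm]
  congr 1
  · refine prod_congr rfl fun i hi => ?_
    unfold bx
    rw [if_neg (mem_sdiff.1 hi).2]
  · refine prod_congr rfl fun i hi => ?_
    unfold bx
    rw [if_pos hi]

lemma Hc_le (H : Set (Tup d n)) (Y : Fin (d + 1) → Finset (Fin n)) :
    (Hc H Y : ℝ) ≤ ∏ i, ((Y i).card : ℝ) := by
  classical
  have h1 : Hc H Y ≤ ∏ i, (Y i).card := by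
    unfold Hc
    refine (card_filter_le _ _).trans ?_
    rw [Fintype.card_piFinset]
  calc (Hc H Y : ℝ) ≤ ((∏ i, (Y i).card : ℕ) : ℝ) := by exact_mod_cast h1
    _ = _ := by push_cast; rfl

lemma claim (H : Set (Tup d n)) (ε : ℝ) (hε : 0 < ε) (hε4 : ε ≤ 1 / 4) (k : ℕ) :
    ∀ Y : Fin (d + 1) → Finset (Fin n), (∀ i, 2 / ε ^ k ≤ ((Y i).card : ℝ)) →
      (1 - ε ^ (d + 1)) ^ k * ∏ i, ((Y i).card : ℝ) < (Hc H Y : ℝ) →
      ∃ Y' : Fin (d + 1) → Finset (Fin n),
        (∀ i, Y' i ⊆ Y i ∧ ε ^ k * ((Y i).card : ℝ) ≤ ((Y' i).card : ℝ)) ∧ Pr H ε Y' := by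
  classical
  have hε1 : ε ≤ 1 := by linarith
  have hx0 : 0 < ε ^ (d + 1) := by positivity
  have hx1 : ε ^ (d + 1) ≤ 1 := pow_le_one₀ hε.le hε1
  induction k with
  | zero =>
    intro Y _ h
    exfalso
    rw [pow_zero, one_mul] at h
    exact absurd (Hc_le H Y) (not_le.2 h)
  | succ k ih =>
    intro Y hY h
    by_cases hP : Pr H ε Y
    · refine ⟨Y, fun i => ⟨Subset.refl _, ?_⟩, hP⟩
      calc ε ^ (k + 1) * ((Y i).card : ℝ) ≤ 1 * ((Y i).card : ℝ) :=
            mul_le_mul_of_nonneg_right (pow_le_one₀ hε.le hε1) (Nat.cast_nonneg _)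
        _ = _ := one_mul _
    · unfold Pr at hP
      push Not at hP
      obtain ⟨Z0, hZ0, hno0⟩ := hP
      have hsh : ∀ i, ∃ Z ⊆ Z0 i, Z.card = ⌈ε * ((Y i).card : ℝ)⌉₊ := by
        intro i
        refine exists_subset_card_eq ?_
        exact Nat.ceil_le.2 (hZ0 i).2
      choose Z hZsub hZcard using hsh
      have hZY : ∀ i, Z i ⊆ Y i := fun i => (hZsub i).trans (hZ0 i).1
      have hno : ∀ f ∈ H, ∃ i, f i ∉ Z i := by
        intro f hf
        obtain ⟨i, hi⟩ := hno0 f hf
        exact ⟨i, fun h1 => hi (hZsub i h1)⟩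
      have hZlow : ∀ i, ε * ((Y i).card : ℝ) ≤ ((Z i).card : ℝ) := by
        intro i
        rw [hZcard i]
        exact Nat.le_ceil _
      have hY2 : ∀ i, (2 : ℝ) ≤ ((Y i).card : ℝ) := by
        intro i
        refine le_trans ?_ (hY i)
        rw [le_div_iff₀ (by positivity)]
        have := pow_le_one₀ hε.le hε1 (n := k + 1)
        linarith
      have hcompl : ∀ i, ε * ((Y i).card : ℝ) ≤ ((Y i \ Z i).card : ℝ) := by
        intro i
        have h1 : ((Y i \ Z i).card : ℝ) = ((Y i).card : ℝ) - ((Z i).card : ℝ) := by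
          rw [eq_sub_iff_add_eq, ← Nat.cast_add, card_sdiff_add_card_eq_card (hZY i)]
        have h2 : ((Z i).card : ℝ) < ε * ((Y i).card : ℝ) + 1 := by
          rw [hZcard i]
          exact Nat.ceil_lt_add_one (by positivity)
        have h3 := hY2 i
        rw [h1]
        nlinarith
      have hside : ∀ B i, ε * ((Y i).card : ℝ) ≤ ((bx Y Z B i).card : ℝ) := by
        intro B i
        unfold bx
        split_ifs
        · exact hZlow i
        · exact hcompl i
      have hfull : Hc H (bx Y Z univ) = 0 := by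
        unfold Hc
        rw [card_eq_zero, filter_eq_empty_iff]
        intro f hf hfH
        obtain ⟨i, hi⟩ := hno f hfH
        rw [Fintype.mem_piFinset] at hf
        have := hf i
        unfold bx at this
        rw [if_pos (mem_univ i)] at this
        exact hi this
      have hexB : ∃ B : Finset (Fin (d + 1)),
          (1 - ε ^ (d + 1)) ^ k * ∏ i, ((bx Y Z B i).card : ℝ) < (Hc H (bx Y Z B) : ℝ) := by
        by_contra hcon
        push Not at hcon
        have h1 : (Hc H Y : ℝ) = ∑ B ∈ (univ : Finset (Finset (Fin (d + 1)))).erase univ,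
            (Hc H (bx Y Z B) : ℝ) := by
          rw [Hc_split H hZY, Nat.cast_sum, ← Finset.add_sum_erase univ _ (mem_univ univ), hfull,
            Nat.cast_zero, zero_add]
        have h2 := prod_split hZY
        rw [← Finset.add_sum_erase univ _ (mem_univ univ)] at h2
        have h3 : (Hc H Y : ℝ) ≤ (1 - ε ^ (d + 1)) ^ k *
            ∑ B ∈ (univ : Finset (Finset (Fin (d + 1)))).erase univ,
              ∏ i, ((bx Y Z B i).card : ℝ) := by
          rw [h1, mul_sum]
          exact sum_le_sum fun B _ => hcon B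
        have h4 : ε ^ (d + 1) * ∏ i, ((Y i).card : ℝ) ≤ ∏ i, ((bx Y Z univ i).card : ℝ) := by
          have h5 : ε ^ (d + 1) * ∏ i, ((Y i).card : ℝ) = ∏ i, (ε * ((Y i).card : ℝ)) := by
            rw [prod_mul_distrib, prod_const, card_univ, Fintype.card_fin]
          rw [h5]
          exact prod_le_prod (fun i _ => by positivity) fun i _ => hside univ i
        have h6 : (Hc H Y : ℝ) ≤ (1 - ε ^ (d + 1)) ^ (k + 1) * ∏ i, ((Y i).card : ℝ) := by
          calc (Hc H Y : ℝ) ≤ _ := h3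
            _ ≤ (1 - ε ^ (d + 1)) ^ k * ((1 - ε ^ (d + 1)) * ∏ i, ((Y i).card : ℝ)) := by
                refine mul_le_mul_of_nonneg_left ?_ (pow_nonneg (by linarith) _)
                linarith
            _ = _ := by rw [pow_succ]; ring
        linarith
      obtain ⟨B, hB⟩ := hexB
      obtain ⟨Y', hY', hPr⟩ := ih (bx Y Z B) (fun i => by
        refine le_trans ?_ (hside B i)
        have h1 := hY i
        rw [div_le_iff₀ (by positivity)] at h1 ⊢
        calc (2 : ℝ) ≤ ((Y i).card : ℝ) * ε ^ (k + 1) := h1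
          _ = _ := by rw [pow_succ]; ring) hB
      refine ⟨Y', fun i => ⟨(hY' i).1.trans (bx_sub hZY B i), ?_⟩, hPr⟩
      calc ε ^ (k + 1) * ((Y i).card : ℝ) = ε ^ k * (ε * ((Y i).card : ℝ)) := by
            rw [pow_succ]; ring
        _ ≤ ε ^ k * ((bx Y Z B i).card : ℝ) :=
            mul_le_mul_of_nonneg_left (hside B i) (by positivity)
        _ ≤ _ := (hY' i).2

end Reg

open Reg in
theorem t_REG : S_REG := by
  classical
  intro d β ε hβ hε hε4
  have hε1 : ε ≤ 1 := by linarith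
  have hx0 : 0 < ε ^ (d + 1) := by positivity
  have hx1 : ε ^ (d + 1) ≤ 1 := pow_le_one₀ hε.le hε1
  obtain ⟨K, hK⟩ := exists_pow_lt_of_lt_one hβ (show 1 - ε ^ (d + 1) < 1 by linarith)
  refine ⟨ε ^ K, by positivity, ⌈2 / ε ^ K⌉₊ + 1, fun n hn H hH => ?_⟩
  have hn1 : 1 ≤ n := by omega
  have hn2 : 2 / ε ^ K ≤ (n : ℝ) := by
    refine (Nat.le_ceil _).trans ?_
    exact_mod_cast (by omega : ⌈2 / ε ^ K⌉₊ ≤ n)
  have hHc : (Hc H (fun _ => univ) : ℝ) = (H.ncard : ℝ) := by
    unfold Hc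
    congr 1
    rw [Set.ncard_eq_toFinset_card']
    congr 1
    ext f
    simp
  obtain ⟨Y', hY', hP⟩ := claim H ε hε hε4 K (fun _ => univ)
    (fun i => by rw [card_univ, Fintype.card_fin]; exact hn2)
    (by
      rw [hHc]
      simp only [card_univ, Fintype.card_fin, prod_const]
      refine lt_of_lt_of_le ?_ hH
      have : (0 : ℝ) < (n : ℝ) ^ (d + 1) := by positivity
      exact mul_lt_mul_of_pos_right hK this)
  refine ⟨Y', fun i => ?_, hP⟩
  have := (hY' i).2
  rw [card_univ, Fintype.card_fin] at this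
  exact this

end Pool.Agent.Run7.h677.PS
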